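import Pool.Agent.H31.FW.Defs

/-!
# The bound of Weyl for friable conductors: targets, parts D, M and F
-/

set_option autoImplicit false

open NumberField NumberField.InfinitePlace NumberField.Units
  NumberField.Units.dirichletUnitTheorem MeasureTheory Set Filter Complex
open scoped nonZeroDivisors ENNReal

namespace Pool.Agent.H31.FW

open Pool.Agent.H25.HK Pool.Agent.H23.LB Pool.Agent.H23.LC Pool.Agent.H29.DW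
open Pool.Agent.H28.RC (Rep ft idl)
open Pool.Agent.H29.TC (dvs cq cr LC Gn MC AC)

/-! ### Part D: characters -/

/-- (CS) the complete sums. -/
def Q_CS : Prop :=
  ∀ n : ℕ, ∀ (K : Type) [Field K] [NumberField K], Module.finrank ℚ K = n →
    ∀ (g q : Ideal (𝓞 K)), GQ ⊤ g q →
    ∀ (η : 𝓞 K ⧸ (g * q) → ℂ), LC (g * q) η → ∀ (M : FI K) (x₀ : K)
    (e : Ideal (𝓞 K)) (h : K), M ≠ 0 → Gn (g * q) M x₀ → q ≤ e →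
    h ∈ ((g * e : Ideal (𝓞 K)) : FI K) * M →
    (∀ e' : Ideal (𝓞 K), q ≤ e' → h ∈ ((g * e' : Ideal (𝓞 K)) : FI K) * M → e ≤ e') →
    (∀ x ∈ M, ∀ t ∈ (q : FI K) * M,
      cq (g * q) η M x₀ (x + t + h) * (starRingEnd ℂ) (cq (g * q) η M x₀ (x + t)) =
        cq (g * q) η M x₀ (x + h) * (starRingEnd ℂ) (cq (g * q) η M x₀ x)) ∧
    ∀ (X : Finset K), Rep K q M X → ∀ y ∈ du K ((q : FI K) * M),
      ‖ft K X (fun x => cq (g * q) η M x₀ (x + h) *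
        (starRingEnd ℂ) (cq (g * q) η M x₀ x)) y‖ ≤
          DQ n (g * q) * (Real.sqrt (Nf K q) * Nf K e)

/-- (CC) the correlations. -/
def Q_CC : Prop :=
  ∀ n : ℕ, ∀ (K : Type) [Field K] [NumberField K], Module.finrank ℚ K = n →
    ∀ (l g q : Ideal (𝓞 K)), GQ l g q →
    ∀ (η : 𝓞 K ⧸ (g * q) → ℂ), LC (g * q) η → ∀ (M : FI K) (x₀ : K), M ≠ 0 →
    Gn (l * (g * q)) M x₀ →
    CorQ (l * g) q M (cq (g * q) η M x₀) (DQ n (g * q)) ∧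
    CorQ (l * g) q M (fun x => (starRingEnd ℂ) (cq (g * q) η M x₀ x)) (DQ n (g * q))

/-- (SG) the local component of a Hecke character at the primes dividing `k`. -/
def Q_SG : Prop :=
  ∀ (K : Type) [Field K] [NumberField K] (l k : Ideal (𝓞 K)), l ≠ ⊥ → k ≠ ⊥ → l ⊔ k = ⊤ →
    ∀ (χ : HG K (l * k)), PrG k χ → ∃ η : 𝓞 K ⧸ k → ℂ, LC k η ∧
    ∀ (M : FI K) (x₀ : K), M ≠ 0 → Gn (l * k) M x₀ → ∃ c : K → ℂ,
      (∀ x ∈ M, ‖c x‖ ≤ 1) ∧ (∀ x ∈ M, ∀ t ∈ (l : FI K) * M, c (x + t) = c x) ∧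
      ∀ x ∈ M, cg χ M x = c x * cq k η M x₀ x

/-- (TR) the transfer by Gauss sums. -/
def Q_TR : Prop :=
  ∀ (K : Type) [Field K] [NumberField K] (l g q : Ideal (𝓞 K)), GQ l g q →
    ∀ (η : 𝓞 K ⧸ (g * q) → ℂ), LC (g * q) η → ∀ (M : FI K) (x₀ y₀ : K) (c : K → ℂ)
    (X X₁ Y : Finset K), M ≠ 0 → Gn (l * (g * q)) M x₀ →
    Gn (l * (g * q)) (du K (((l * (g * q) : Ideal (𝓞 K)) : FI K) * M)) y₀ →
    (∀ x ∈ M, ‖c x‖ ≤ 1) →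
    (∀ x ∈ M, ∀ t ∈ (l : FI K) * M, c (x + t) = c x) → Rep K (l * (g * q)) M X →
    Rep K (l * g) M X₁ → Rep K (l * g) (du K (((l * (g * q) : Ideal (𝓞 K)) : FI K) * M)) Y →
    ∀ b : K → ℂ, Summable (fun y : {y : K //
      y ∈ du K (((l * (g * q) : Ideal (𝓞 K)) : FI K) * M)} => ‖b y‖) →
    ∑ r ∈ X₁, ‖∑' y : {y : K // y ∈ du K (((l * (g * q) : Ideal (𝓞 K)) : FI K) * M)},
      ft K X (cr K (l * g) M (fun x => c x * cq (g * q) η M x₀ x) r) y * b y‖ ^ 2 ≤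
    Nf K (l * (g * q)) * ∑ r ∈ Y, ‖∑' y : {y : K //
        y ∈ du K (((l * (g * q) : Ideal (𝓞 K)) : FI K) * M)},
      cr K (l * g) (du K (((l * (g * q) : Ideal (𝓞 K)) : FI K) * M))
        (fun y => (starRingEnd ℂ) (cq (g * q) η
          (du K (((l * (g * q) : Ideal (𝓞 K)) : FI K) * M)) y₀ y)) r y * b y‖ ^ 2

/-! ### Part M: the mean square -/

/-- (QW) the mean square over the residue classes modulo `j`. -/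
def Q_QW : Prop :=
  ∀ n A : ℕ, 0 < n → n + 1 ≤ A → ∃ C : ℝ, 0 ≤ C ∧ ∀ (K : Type) [Field K] [NumberField K],
    Module.finrank ℚ K = n → ∀ (j q : Ideal (𝓞 K)) (M : FI K) (f : K → ℂ) (D : ℝ)
    (X₁ : Finset K) (cp : InfinitePlace K → ℂ) (H : InfinitePlace K → ℝ)
    (p : InfinitePlace K → ℂ → ℂ) (B : ℝ), j ≠ ⊥ → q ≠ ⊥ → M ≠ 0 → 1 ≤ D → CorQ j q M f D →
    Rep K j M X₁ → Prm cp H → 1 ≤ B → (∀ v, Bmp A B (p v)) →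
    ∀ (y : InfinitePlace K → ℝ) (ω : InfinitePlace K → ℂ), Pos ω →
    ∑ r ∈ X₁, ENNReal.ofReal (‖Sq j M f r cp H p y ω‖ ^ 2) ≤
      ∑' x : {x : K // x ∈ M}, ENNReal.ofReal (‖Wg cp H p x y ω‖ ^ 2) +
      ENNReal.ofReal (C * B ^ (2 * n) * (HH H)⁻¹ * (D * Real.sqrt (Nf K q)) *
        (Real.exp (-(∑ v, (v.mult : ℝ) * y v) / 2) * (cv K ((q : FI K) * M))⁻¹)) *
        ∑ e ∈ dvs K q, ENNReal.ofReal (min (Nf K e) (Real.sqrt (Nf K q))) *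
          ∑' h : {h : K // h ∈ ((j * e : Ideal (𝓞 K)) : FI K) * M ∧ h ≠ 0},
            ∑' y' : {y' : K // y' ∈ du K ((q : FI K) * M)},
              ENNReal.ofReal (Amb A cp H h y' y ω)

open scoped Classical in
/-- (TT) the mean square for a system of representatives. -/
def Q_TT : Prop :=
  ∀ n : ℕ, 0 < n → ∀ ε : ℝ, 0 < ε → ε ≤ 1 → ∃ C : ℝ, 0 ≤ C ∧ ∀ (K : Type) [Field K]
    [NumberField K], Module.finrank ℚ K = n → ∀ (ι : Type) [Fintype ι] (M : ι → FI K),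
    Reps K M → ∀ (j q : Ideal (𝓞 K)) (D : ℝ) (f : ι → K → ℂ) (X₁ : ι → Finset K)
    (cp : InfinitePlace K → ℂ) (H : InfinitePlace K → ℝ) (p : InfinitePlace K → ℂ → ℂ) (B : ℝ)
    (s : Bool) (τ₁ : ℝ), j ≠ ⊥ → q ≠ ⊥ → 1 ≤ D → (∀ c, CorQ j q (M c) (f c) D) →
    (∀ c, Rep K j (M c) (X₁ c)) → Prm cp H → 1 ≤ B → (∀ v, Bmp (2 * n + 4) B (p v)) →
    ∑ c, ∫⁻ z in Fd K, ∫⁻ τ in Icc τ₁ (τ₁ + 1), ∫⁻ θ in An K, ∑ r ∈ X₁ c,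
      ENNReal.ofReal (‖Sq j (M c) (f c) r cp H p (yM K (M c) τ (zs s z)) (om s θ)‖ ^ 2) ≤
    ENNReal.ofReal (C * B ^ (2 * n) * cw K * ((dvs K q).card * D) *
      (|(discr K : ℝ)| * Nf K j * Nf K q * HH H * Real.exp |τ₁|) ^ ε *
      (Real.exp (-τ₁) * (HH H)⁻¹ * (1 + Real.sqrt (Nf K q) / Nf K j +
        Real.exp (-τ₁) * (HH H ^ 2)⁻¹ /
          (Real.sqrt |(discr K : ℝ)| * Nf K j * Real.sqrt (Nf K q)))))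

open scoped Classical in
/-- (BS) the bound for the integral over all positions. -/
def Q_BS : Prop :=
  ∀ n : ℕ, 0 < n → ∀ ε κ : ℝ, 0 < ε → ε ≤ 1 → 0 < κ → κ ≤ ε / 16 → ∃ C : ℝ, 0 ≤ C ∧
    ∀ (K : Type) [Field K] [NumberField K], Module.finrank ℚ K = n → ∀ (ι : Type) [Fintype ι]
    (M : ι → FI K), Reps K M → ∀ (j q : Ideal (𝓞 K)) (D : ℝ) (f : ι → K → ℂ)
    (X₁ : ι → Finset K) (cp : InfinitePlace K → ℂ) (H : InfinitePlace K → ℝ)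
    (X B Λ : ℝ) (v : ℝ → ℂ) (cc : ι → K → ℂ) (s : Bool), j ≠ ⊥ → q ≠ ⊥ → 1 ≤ D →
    (∀ c, CorQ j q (M c) (f c) D) → (∀ c, Rep K j (M c) (X₁ c)) → Prm cp H → 1 ≤ X →
    X ^ 2 ≤ 3 ^ n * (|(discr K : ℝ)| * Nf K j * Nf K q * HH H ^ 3) → 0 ≤ B →
    Wt κ X B v → 0 ≤ Λ → (∀ c, ∃ A : ℝ, ∀ x ∈ M c, ‖cc c x‖ ≤ A) →
    (∀ (c : ι) (p : InfinitePlace K → ℂ → ℂ) (y : InfinitePlace K → ℝ)
      (ω : InfinitePlace K → ℂ), (∀ v, ∃ B' : ℝ, Bmp (2 * n + 4) B' (p v)) → Pos ω →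
      ‖∑' x : {x : K // x ∈ M c}, cc c x * Wg cp H p x y ω‖ ^ 2 ≤
        Λ * ∑ r ∈ X₁ c, ‖Sq j (M c) (f c) r cp H p y ω‖ ^ 2) →
    (∑ c, ∫⁻ u in Fd K ×ˢ (univ : Set ℝ) ×ˢ An K,
      ENNReal.ofReal ‖∑' x : {x : K // x ∈ M c ∧ x ≠ 0}, cc c x *
        v (Ideal.absNorm (idl K (M c) x)) *
          Wg cp H pb x (yM K (M c) u.2.1 (zs s u.1)) (om s u.2.2)‖) ^ 2 ≤
    ENNReal.ofReal (C * B ^ 2 * Λ * (classNumber K * regulator K) * cw K *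
      ((dvs K q).card * D) * (|(discr K : ℝ)| * Nf K j * Nf K q * HH H) ^ ε * (HH H)⁻¹ *
      (1 + Real.sqrt (Nf K q) / Nf K j))

/-- (BP) the bound for the first sum. -/
def Q_BP : Prop :=
  ∀ n : ℕ, 0 < n → ∀ ε κ : ℝ, 0 < ε → ε ≤ 1 → 0 < κ → κ ≤ ε / 32 → ∃ C : ℝ, 0 ≤ C ∧
    ∀ (K : Type) [Field K] [NumberField K], Module.finrank ℚ K = n →
    ∀ (l g q : Ideal (𝓞 K)), GQ l g q → ∀ (χ : HG K (l * (g * q))), PrG q χ →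
    ∀ (t B : ℝ) (v : ℝ → ℂ), 0 ≤ B →
    Wt κ (Real.sqrt (|(discr K : ℝ)| * Nf K (l * (g * q)) * Ci χ.k χ.ν t)) B v →
    ‖∑' J : NZI K, χ.ψ J.1 * v (Ideal.absNorm J.1) *
      (Ideal.absNorm J.1 : ℂ) ^ (-(t * I : ℂ))‖ ^ 2 ≤
    C * B ^ 2 * (|(discr K : ℝ)| * Nf K (l * (g * q)) * Ci χ.k χ.ν t) ^ ε *
      ((classNumber K * regulator K) * (Nf K (l * g) + Real.sqrt (Nf K q)) *
        Ci χ.k χ.ν t ^ (1 / 3 : ℝ))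

/-- (BQ) the bound for the dual sum. -/
def Q_BQ : Prop :=
  ∀ n : ℕ, 0 < n → ∀ ε κ : ℝ, 0 < ε → ε ≤ 1 → 0 < κ → κ ≤ ε / 32 → ∃ C : ℝ, 0 ≤ C ∧
    ∀ (K : Type) [Field K] [NumberField K], Module.finrank ℚ K = n →
    ∀ (l g q : Ideal (𝓞 K)), GQ l g q → ∀ (χ : HG K (l * (g * q))), PrG q χ →
    ∀ (D : Sys K (l * (g * q))) (t B : ℝ) (v : ℝ → ℂ), 0 ≤ B →
    Wt κ (Real.sqrt (|(discr K : ℝ)| * Nf K (l * (g * q)) * Ci χ.k χ.ν t)) B v →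
    ‖∑' J : NZI K, cd D χ J.1 * v (Ideal.absNorm J.1) *
      (Ideal.absNorm J.1 : ℂ) ^ (t * I : ℂ)‖ ^ 2 ≤
    C * B ^ 2 * (|(discr K : ℝ)| * Nf K (l * (g * q)) * Ci χ.k χ.ν t) ^ ε *
      ((classNumber K * regulator K) * (Nf K (l * g) + Real.sqrt (Nf K q)) *
        Ci χ.k χ.ν t ^ (1 / 3 : ℝ))

/-- (WY) the hybrid Weyl bound. -/
def Q_WY : Prop :=
  ∀ n : ℕ, 0 < n → ∀ ε : ℝ, 0 < ε → ∃ C : ℝ, ∀ (K : Type) [Field K] [NumberField K],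
    Module.finrank ℚ K = n → ∀ (l g q : Ideal (𝓞 K)), GQ l g q →
    ∀ (χ : HG K (l * (g * q))), PrG q χ → ∃ L : ℂ → ℂ, IsCon χ L ∧
    ∀ t : ℝ, ‖L (1 / 2 + t * I)‖ ≤ C * Cond χ t ^ ε * WQ l g q χ t

/-! ### Part F: friable conductors -/

/-- (FS) the factorization of a friable ideal. -/
def Q_FS : Prop :=
  ∀ n : ℕ, ∃ C : ℝ, 1 ≤ C ∧ ∀ (K : Type) [Field K] [NumberField K],
    Module.finrank ℚ K = n → ∀ (f : Ideal (𝓞 K)) (Y : ℝ), f ≠ ⊥ → 1 ≤ Y →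
    (∀ P : Ideal (𝓞 K), P.IsPrime → f ≤ P → Nf K P ≤ Y) →
    ∃ l g q : Ideal (𝓞 K), GQ l g q ∧ f = l * (g * q) ∧
      Nf K f ^ (1 / 3 : ℝ) ≤ Nf K (l * g) ∧ Nf K (l * g) ≤ C * (Nf K f ^ (1 / 3 : ℝ) * Y ^ 2)

/-- (WF) the bound of Weyl for friable conductors. -/
def Q_WF : Prop :=
  ∀ n : ℕ, 0 < n → ∀ ε : ℝ, 0 < ε → ∃ C : ℝ, ∀ (K : Type) [Field K] [NumberField K],
    Module.finrank ℚ K = n →
    (∀ (l g q : Ideal (𝓞 K)), GQ l g q → ∀ (χ : HG K (l * (g * q))), PrG q χ →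
      ∃ L : ℂ → ℂ, IsCon χ L ∧
      ∀ t : ℝ, ‖L (1 / 2 + t * I)‖ ≤ C * Cond χ t ^ ε * WQ l g q χ t) ∧
    ∀ (f : Ideal (𝓞 K)), f ≠ ⊥ → ∀ δ : ℝ, 0 ≤ δ →
      (∀ P : Ideal (𝓞 K), P.IsPrime → f ≤ P → (Ideal.absNorm P : ℝ) ≤ Ideal.absNorm f ^ δ) →
      ∀ χ : HG K f, PrG f χ → ∃ L : ℂ → ℂ, IsCon χ L ∧
      ∀ t : ℝ, ‖L (1 / 2 + t * I)‖ ≤ C * Cond χ t ^ ε * WF δ χ t

end Pool.Agent.H31.FW
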