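import Pool.Agent.H31.FW.Defs
import Pool.Agent.H23.BG.TargetsL
import Pool.Agent.H23.BG.TargetsW

/-!
# The bound of Weyl for friable conductors: targets, parts W and L

The bound of Weil for the sums `∑_x χ(x + h) conj χ(x) ψ(x)`; complete sums modulo ideals.
-/

set_option autoImplicit false

open NumberField NumberField.InfinitePlace NumberField.Units
  NumberField.Units.dirichletUnitTheorem MeasureTheory Set Filter Complex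
open scoped nonZeroDivisors ENNReal

namespace Pool.Agent.H31.FW

open Pool.Agent.H25.HK Pool.Agent.H23.LB Pool.Agent.H23.LC Pool.Agent.H29.DW
open Pool.Agent.H28.RC (Rep ft idl)
open Pool.Agent.H29.TC (dvs cq LC Gn MC AC)
open Pool.Agent.H23.BG (Ac am sm)

/-! ### Part W: the bound of Weil -/

open scoped Classical in
/-- (AS) the elements of trace zero. -/
def Q_AS : Prop :=
  ∀ (F : Type) [Field F] [Fintype F] (E : Type) [Field E] [Fintype E] [Algebra F E] (y : E),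
    ∑ ψ : AddChar F ℂ, ψ (Algebra.trace F E y) =
      (Nat.card {z : E // z ^ Fintype.card F - z = y} : ℂ)

open scoped Classical in
/-- (TK) the sum over all additive characters. -/
def Q_TK : Prop :=
  ∀ (F : Type) [Field F] [Fintype F] (χ : MulChar F ℂ) (h : F), χ ≠ 1 → h ≠ 0 →
    ∃ C : ℝ, 0 ≤ C ∧ ∀ (E : Type) [Field E] [Fintype E] [Algebra F E] (χ' : MulChar E ℂ),
    orderOf χ' = orderOf χ → (∀ x : E, χ' x = χ (Algebra.norm F x)) →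
    ‖∑ ψ : AddChar F ℂ, ∑ y : E, χ (Algebra.norm F (y + algebraMap F E h)) *
      (starRingEnd ℂ) (χ (Algebra.norm F y)) * ψ (Algebra.trace F E y)‖ ≤
      C * Real.sqrt (Fintype.card E) ∧
    ‖∑ y : E, χ (Algebra.norm F (y + algebraMap F E h)) *
      (starRingEnd ℂ) (χ (Algebra.norm F y))‖ ≤ 1

/-- (LX) the function `mx`. -/
def Q_LX : Prop :=
  ∀ (F : Type) [Field F] [Fintype F] (χ : MulChar F ℂ) (ψ : AddChar F ℂ) (h : F),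
    (mx χ ψ h 1 = 1 ∧ ∀ g k : Polynomial F, g.Monic → k.Monic →
      mx χ ψ h (g * k) = mx χ ψ h g * mx χ ψ h k) ∧
    ∀ (E : Type) [Field E] [Fintype E] [Algebra F E] (y : E),
      mx χ ψ h (minpoly F y) ^ (Module.finrank F E / (minpoly F y).natDegree) =
        χ (Algebra.norm F (y + algebraMap F E h)) * (starRingEnd ℂ) (χ (Algebra.norm F y)) *
          ψ (Algebra.trace F E y)

/-- (VA) the coefficients of the `L`-function vanish. -/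
def Q_VA : Prop :=
  ∀ (F : Type) [Field F] [Fintype F] (χ : MulChar F ℂ) (ψ : AddChar F ℂ) (h : F), ψ ≠ 1 →
    am F (mx χ ψ h) 0 = 1 ∧ ∀ n : ℕ, 3 ≤ n → am F (mx χ ψ h) n = 0

/-- (PL) from a bound for the sums of the power sums to the bound of Weil. -/
def Q_PL : Prop :=
  ∀ (ι : Type) [Fintype ι] (a S : ι → ℕ → ℂ) (q C : ℝ), 1 ≤ q → (∀ i, a i 0 = 1) →
    (∀ i, ∀ n, 3 ≤ n → a i n = 0) →
    (∀ i, ∀ n : ℕ, 1 ≤ n → (n : ℂ) * a i n = ∑ k ∈ Finset.Icc 1 n, S i k * a i (n - k)) →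
    (∀ k : ℕ, 1 ≤ k → ‖∑ i, S i k‖ ≤ C * q ^ ((k : ℝ) / 2)) → ∀ i, ‖S i 1‖ ≤ 2 * Real.sqrt q

/-- (MX) the bound of Weil for the mixed sums. -/
def Q_MX : Prop :=
  ∀ (F : Type) [Field F] [Fintype F] (χ : MulChar F ℂ) (ψ : AddChar F ℂ) (h : F), χ ≠ 1 →
    h ≠ 0 → ‖∑ y : F, χ (y + h) * (starRingEnd ℂ) (χ y) * ψ y‖ ≤
      2 * Real.sqrt (Fintype.card F)

/-! ### Part L: complete sums modulo prime powers -/

/-- (LS) the complete sum in a finite ring is supported on the stationary points. -/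
def Q_LS : Prop :=
  ∀ (R : Type) [CommRing R] [Fintype R] (I : Ideal R) (η θ : R → ℂ) (h : R), MC η → Pm η →
    AC θ → (∀ z ∈ I, IsNilpotent z) → (∀ z ∈ I, ∀ z' ∈ I, h * (z * z') = 0) →
    cs η θ h = 0 ∨ ∃ y : R, IsUnit y ∧ IsUnit (y + h) ∧
      ‖cs η θ h‖ ≤ Nat.card {x : R // ∀ z ∈ I, z * h * ((x - y) * (x + y + h)) = 0}

/-- (LG) the complete sum in a finite ring, with a quadratic Gauss sum. -/
def Q_LG : Prop :=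
  ∀ (R : Type) [CommRing R] [Fintype R] (I J : Ideal R) (η θ : R → ℂ) (h : R) (k : ℕ), MC η →
    Pm η → AC θ → IsUnit (2 : R) → J ≤ I → (∀ z ∈ I, IsNilpotent z) →
    (∀ z ∈ I, ∀ z' ∈ I, h ^ 2 * (z * z') = 0) →
    (∀ z ∈ I, ∀ z' ∈ I, ∀ z'' ∈ I, h * (z * z' * z'') = 0) →
    (∀ z ∈ J, ∀ z' ∈ I, h * (z * z') = 0) →
    (∀ z ∈ I, (∀ z' ∈ I, h * (z * z') = 0) → z ∈ J) → Nat.card I = k * Nat.card J →
    cs η θ h = 0 ∨ ∃ y : R, IsUnit y ∧ IsUnit (y + h) ∧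
      ‖cs η θ h‖ ^ 2 * k ≤
        (Nat.card {x : R // ∀ z ∈ J, z * h * ((x - y) * (x + y + h)) = 0} : ℝ) ^ 2

/-- (CN) the number of the stationary points modulo a prime power. -/
def Q_CN : Prop :=
  ∀ (K : Type) [Field K] [NumberField K] (P : Ideal (𝓞 K)), P.IsPrime → P ≠ ⊥ →
    ∀ (e i a t : ℕ) (h y : 𝓞 K), h ∈ P ^ a → h ∉ P ^ (a + 1) →
    ((2 * y + h ∉ P ^ (t + 1) →
      (Nat.card {x : 𝓞 K ⧸ P ^ e // ∀ z ∈ (P ^ i).map (Ideal.Quotient.mk (P ^ e)),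
        z * Ideal.Quotient.mk (P ^ e) h * ((x - Ideal.Quotient.mk (P ^ e) y) *
          (x + Ideal.Quotient.mk (P ^ e) y + Ideal.Quotient.mk (P ^ e) h)) = 0} : ℝ) ≤
      2 * Nf K P ^ (t + i + a)) ∧
    (e = i + a + 1 →
      (Nat.card {x : 𝓞 K ⧸ P ^ e // ∀ z ∈ (P ^ i).map (Ideal.Quotient.mk (P ^ e)),
        z * Ideal.Quotient.mk (P ^ e) h * ((x - Ideal.Quotient.mk (P ^ e) y) *
          (x + Ideal.Quotient.mk (P ^ e) y + Ideal.Quotient.mk (P ^ e) h)) = 0} : ℝ) ≤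
      2 * Nf K P ^ (i + a)))

/-- (L1) the complete sum modulo a prime. -/
def Q_L1 : Prop :=
  ∀ (K : Type) [Field K] [NumberField K] (P : Ideal (𝓞 K)), P.IsPrime → P ≠ ⊥ →
    ∀ [Fintype (𝓞 K ⧸ P ^ 1)] (η θ : 𝓞 K ⧸ P ^ 1 → ℂ), LC (P ^ 1) η → AC θ → ∀ h : 𝓞 K,
    ‖cs η θ (Ideal.Quotient.mk (P ^ 1) h)‖ ^ 2 ≤
      16 * (Nf K (P ^ 1) * Nf K (Ideal.span {h} ⊔ P ^ 1) ^ 2)

/-- (L2) the complete sum modulo the square of a prime. -/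
def Q_L2 : Prop :=
  ∀ (K : Type) [Field K] [NumberField K] (P : Ideal (𝓞 K)), P.IsPrime → P ≠ ⊥ →
    ∀ [Fintype (𝓞 K ⧸ P ^ 2)] (η θ : 𝓞 K ⧸ P ^ 2 → ℂ), LC (P ^ 2) η → AC θ → ∀ h : 𝓞 K,
    ‖cs η θ (Ideal.Quotient.mk (P ^ 2) h)‖ ^ 2 ≤
      16 * (Nf K (P ^ 2) * Nf K (Ideal.span {h} ⊔ P ^ 2) ^ 2)

/-- (LE) the complete sum modulo a prime power. -/
def Q_LE : Prop :=
  ∀ n : ℕ, ∀ (K : Type) [Field K] [NumberField K], Module.finrank ℚ K = n →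
    ∀ P : Ideal (𝓞 K), P.IsPrime → P ≠ ⊥ → ∀ s e : ℕ, (2 : 𝓞 K) ∉ P ^ s → s + 2 ≤ e →
    ∀ [Fintype (𝓞 K ⧸ P ^ e)] (η θ : 𝓞 K ⧸ P ^ e → ℂ), LC (P ^ e) η → AC θ →
    ∀ h ∈ P ^ s, ((2 : 𝓞 K) ∈ P ∨ h ∈ P ^ (s + 1) ∨ Even (e - s)) →
    ‖cs η θ (Ideal.Quotient.mk (P ^ e) h)‖ ^ 2 * Nf K (P ^ s) ≤
      Ac K n P ^ 2 * (Nf K (P ^ e) * Nf K (Ideal.span {h} ⊔ P ^ e) ^ 2)

/-- (LO) the complete sum modulo an odd power of an odd prime. -/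
def Q_LO : Prop :=
  ∀ (K : Type) [Field K] [NumberField K] (P : Ideal (𝓞 K)), P.IsPrime → P ≠ ⊥ →
    (2 : 𝓞 K) ∉ P → ∀ s m : ℕ, 1 ≤ s → 1 ≤ m →
    ∀ [Fintype (𝓞 K ⧸ P ^ (s + (2 * m + 1)))] (η θ : 𝓞 K ⧸ P ^ (s + (2 * m + 1)) → ℂ),
    LC (P ^ (s + (2 * m + 1))) η → AC θ → ∀ h ∈ P ^ s, h ∉ P ^ (s + 1) →
    ‖cs η θ (Ideal.Quotient.mk (P ^ (s + (2 * m + 1))) h)‖ ^ 2 * Nf K P ≤
      4 * Nf K P ^ (2 * (m + 1 + s))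

/-- (CR) the Chinese remainder theorem. -/
def Q_CR : Prop :=
  ∀ (K : Type) [Field K] [NumberField K] (f g : Ideal (𝓞 K)), f ≠ ⊥ → g ≠ ⊥ → f ⊔ g = ⊤ →
    ∀ [Fintype (𝓞 K ⧸ f)] [Fintype (𝓞 K ⧸ g)] [Fintype (𝓞 K ⧸ (f * g))]
    (η θ : 𝓞 K ⧸ (f * g) → ℂ), LC (f * g) η → AC θ →
    ∃ (η₁ θ₁ : 𝓞 K ⧸ f → ℂ) (η₂ θ₂ : 𝓞 K ⧸ g → ℂ),
    LC f η₁ ∧ AC θ₁ ∧ LC g η₂ ∧ AC θ₂ ∧ ∀ h : 𝓞 K,
      cs η θ (Ideal.Quotient.mk (f * g) h) =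
        cs η₁ θ₁ (Ideal.Quotient.mk f h) * cs η₂ θ₂ (Ideal.Quotient.mk g h)

/-- (GL) the complete sum modulo an ideal. -/
def Q_GL : Prop :=
  ∀ n : ℕ, ∀ (K : Type) [Field K] [NumberField K], Module.finrank ℚ K = n →
    ∀ g f : Ideal (𝓞 K), g ≠ ⊥ → f ≠ ⊥ →
    (∀ P : Ideal (𝓞 K), P.IsPrime → f ≤ P → LQ g f P) →
    ∀ [Fintype (𝓞 K ⧸ f)] (η θ : 𝓞 K ⧸ f → ℂ), LC f η → AC θ → ∀ h ∈ g,
    ‖cs η θ (Ideal.Quotient.mk f h)‖ ^ 2 * Nf K (g ⊔ f) ≤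
      DQ n f ^ 2 * (Nf K f * Nf K (Ideal.span {h} ⊔ f) ^ 2)

end Pool.Agent.H31.FW
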