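import Pool.Agent.H23.BG.Defs
import Pool.Agent.H29.DW.Stmt

/-!
# The bound of Weyl for friable conductors: definitions

The modulus is `l * (g * q)`. The integers are averaged over the residue classes modulo `l g`, and
the complete sums are modulo `q`.
-/

set_option autoImplicit false

open NumberField NumberField.InfinitePlace NumberField.Units
  NumberField.Units.dirichletUnitTheorem MeasureTheory Set Filter Complex
open scoped nonZeroDivisors ENNReal

namespace Pool.Agent.H31.FW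

open Pool.Agent.H25.HK Pool.Agent.H23.LB Pool.Agent.H23.LC Pool.Agent.H29.DW
open Pool.Agent.H28.RC (Rep ft idl)
open Pool.Agent.H29.TC (dvs cq LC Gn MC AC)

/-! ### Complete sums -/

/-- the complete sum `∑_x η(x + h) conj η(x) θ(x)` -/
noncomputable def cs {R : Type} [CommRing R] [Fintype R] (η θ : R → ℂ) (h : R) : ℂ :=
  ∑ x : R, η (x + h) * (starRingEnd ℂ) (η x) * θ x

/-- a primitive function on a ring -/
def Pm {R : Type} [CommRing R] (η : R → ℂ) : Prop :=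
  ∀ w : R, w ≠ 0 → ∃ r : R, IsUnit (1 + r * w) ∧ η (1 + r * w) ≠ 1

/-- the multiplicative function of the mixed character sum -/
noncomputable def mx {F : Type} [Field F] (χ : MulChar F ℂ) (ψ : AddChar F ℂ) (h : F)
    (g : Polynomial F) : ℂ :=
  χ (g.eval (-h)) * (starRingEnd ℂ) (χ (g.eval 0)) * ψ (-g.nextCoeff)

/-! ### Number fields -/

section NF

variable {K : Type} [Field K] [NumberField K]

/-- the condition at the prime `P` for the modulus `f`: either `P` does not divide `g` and `P ^ 3`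
does not divide `f`, or the exponent of `P` in `g` is larger than the exponent of `P` in `2` and
smaller by at least `2` than the exponent in `f` -/
def LQ (g f P : Ideal (𝓞 K)) : Prop :=
  (¬ g ≤ P ∧ ¬ f ≤ P ^ 3) ∨
    ((∀ t : ℕ, (2 : 𝓞 K) ∈ P ^ t → g ≤ P ^ (t + 1)) ∧
      ∃ s : ℕ, ¬ g ≤ P ^ (s + 1) ∧ f ≤ P ^ (s + 2))

/-- The modulus is `l g q`: `l` is prime to `g q`, the prime divisors of `g` divide `q`, and each
prime divisor `P` of `q` satisfies one of two conditions: `P` does not divide `g` and `P ^ 3` does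
not divide `q`, or `P ^ 2` divides `q` and the exponent of `P` in `g` is larger than the exponent of
`P` in `2`. -/
structure GQ (l g q : Ideal (𝓞 K)) : Prop where
  l_ne : l ≠ ⊥
  g_ne : g ≠ ⊥
  q_ne : q ≠ ⊥
  cop : l ⊔ g * q = ⊤
  rad : ∀ P : Ideal (𝓞 K), P.IsPrime → g ≤ P → q ≤ P
  loc : ∀ P : Ideal (𝓞 K), P.IsPrime → q ≤ P →
    (¬ g ≤ P ∧ ¬ q ≤ P ^ 3) ∨
      (q ≤ P ^ 2 ∧ ∀ t : ℕ, (2 : 𝓞 K) ∈ P ^ t → g ≤ P ^ (t + 1))

/-- Bounds for the correlations of the function `c` on `M`: the differences are in `j M`, the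
correlations have the period `q`. -/
structure CorQ (j q : Ideal (𝓞 K)) (M : FI K) (c : K → ℂ) (D : ℝ) : Prop where
  norm : ∀ x ∈ M, ‖c x‖ ≤ 1
  cor : ∀ h ∈ (j : FI K) * M, h ≠ 0 → ∃ e ∈ dvs K q, h ∈ ((j * e : Ideal (𝓞 K)) : FI K) * M ∧
    (∀ x ∈ M, ∀ t ∈ (q : FI K) * M,
      c (x + t + h) * (starRingEnd ℂ) (c (x + t)) = c (x + h) * (starRingEnd ℂ) (c x)) ∧
    ∀ X : Finset K, Rep K q M X → ∀ y ∈ du K ((q : FI K) * M),
      ‖ft K X (fun x => c (x + h) * (starRingEnd ℂ) (c x)) y‖ ≤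
        D * (Real.sqrt (Nf K q) * Nf K e)

/-- the constant for the complete sums modulo `f` -/
noncomputable def DQ (n : ℕ) (f : Ideal (𝓞 K)) : ℝ :=
  4 ^ (n * (n + 1)) * ((dvs K f).card : ℝ) ^ 2

/-- `|d_K|^(1/4) (N(l g) + N(q)^(1/2))^(1/2) C_∞^(1/6)` -/
noncomputable def WQ (l g q : Ideal (𝓞 K)) {f : Ideal (𝓞 K)} (χ : HG K f) (t : ℝ) : ℝ :=
  |(discr K : ℝ)| ^ (1 / 4 : ℝ) *
    (Ideal.absNorm (l * g) + Real.sqrt (Ideal.absNorm q)) ^ (1 / 2 : ℝ) *
    Ci χ.k χ.ν t ^ (1 / 6 : ℝ)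

/-- the bound of Weyl for a friable conductor: `|d_K|^(1/4) N(f)^(1/6 + δ) C_∞^(1/6)` -/
noncomputable def WF (δ : ℝ) {f : Ideal (𝓞 K)} (χ : HG K f) (t : ℝ) : ℝ :=
  |(discr K : ℝ)| ^ (1 / 4 : ℝ) * (Ideal.absNorm f : ℝ) ^ (1 / 6 + δ) *
    Ci χ.k χ.ν t ^ (1 / 6 : ℝ)

end NF

end Pool.Agent.H31.FW
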