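import Pool.Agent.H31.FW.TargetsG

/-!
# The bound of Weyl for friable conductors: targets, final form
-/

set_option autoImplicit false

open NumberField NumberField.InfinitePlace NumberField.Units
  NumberField.Units.dirichletUnitTheorem MeasureTheory Set Filter Complex
open scoped nonZeroDivisors ENNReal

namespace Pool.Agent.H31.FW

open Pool.Agent.H25.HK Pool.Agent.H23.LB Pool.Agent.H23.LC Pool.Agent.H29.DW

section NF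

variable {K : Type} [Field K] [NumberField K]

/-- The norms of the prime divisors of `r` are at most `Y`. -/
def Fri (r : Ideal (𝓞 K)) (Y : ℝ) : Prop :=
  ∀ P : Ideal (𝓞 K), P.IsPrime → r ≤ P → (Ideal.absNorm P : ℝ) ≤ Y

/-- `|d_K|^(1/4) (Y N(f)^(1/6) + Y N(l g)^(1/2) N(r)^(1/6) + N(q)^(1/4)) C_∞^(1/6)` -/
noncomputable def WR (l g q r : Ideal (𝓞 K)) (Y : ℝ) {f : Ideal (𝓞 K)} (χ : HG K f) (t : ℝ) : ℝ :=
  |(discr K : ℝ)| ^ (1 / 4 : ℝ) *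
    (Y * (Ideal.absNorm f : ℝ) ^ (1 / 6 : ℝ) +
      Y * ((Ideal.absNorm (l * g) : ℝ) ^ (1 / 2 : ℝ) * (Ideal.absNorm r : ℝ) ^ (1 / 6 : ℝ)) +
      (Ideal.absNorm q : ℝ) ^ (1 / 4 : ℝ)) *
    Ci χ.k χ.ν t ^ (1 / 6 : ℝ)

end NF

/-- (FR) the factorization of a friable ideal. -/
def Q_FR : Prop :=
  ∀ n : ℕ, ∃ C : ℝ, 1 ≤ C ∧ ∀ (K : Type) [Field K] [NumberField K],
    Module.finrank ℚ K = n → ∀ (f : Ideal (𝓞 K)) (Y R : ℝ), f ≠ ⊥ → 1 ≤ Y → Fri f Y →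
    Nf K f ^ (1 / 3 : ℝ) ≤ R → R ≤ Nf K f →
    ∃ l g q : Ideal (𝓞 K), GQ l g q ∧ f = l * (g * q) ∧
      R ≤ Nf K (l * g) ∧ Nf K (l * g) ≤ C * (R * Y ^ 2)

/-- (WR) the bound of Weyl, final form. -/
def Q_WR : Prop :=
  ∀ n : ℕ, 0 < n → ∀ ε : ℝ, 0 < ε → ∃ C : ℝ, ∀ (K : Type) [Field K] [NumberField K],
    Module.finrank ℚ K = n → ∀ (l g q r f : Ideal (𝓞 K)) (Y : ℝ), GQ l g q → r ≠ ⊥ →
    l * (g * q) ⊔ r = ⊤ → f = l * (g * q) * r → 1 ≤ Y → Fri r Y →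
    ∀ χ : HG K f, PrG (q * r) χ → ∃ L : ℂ → ℂ, IsCon χ L ∧
    ∀ t : ℝ, ‖L (1 / 2 + t * I)‖ ≤ C * Cond χ t ^ ε * WR l g q r Y χ t

end Pool.Agent.H31.FW
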